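import Pool.Agent.H737R3.Points

/-!
# Chudnovsky's and Demailly's inequalities for closed points over arbitrary fields

`K` is a field and `M` is a finite Galois extension of `K` (for example `M = K`).  A point of
`P^n(M)` determines a closed point of `P^n_K`, whose residue field is separable over `K`; every
finite set of closed points of `P^n_K` with separable residue fields is obtained in this way for
some `M`, and for `M = K` one gets the finite sets of `K`-rational points.

For a finite set `Z` of points of `P^n(M)` let `I^(k) ⊆ K[x_0, …, x_n]` be the ideal of the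
polynomials with coefficients in `K` which vanish to order at least `k` at the points of `Z`.
For `M = K` this is the intersection of the `k`-th powers of the homogeneous ideals of the points.

The proof: the trace of `M / K` turns a form with coefficients in `M` which vanishes at all
conjugates of the points of `Z` into a form with coefficients in `K`; over `M` the
inequality for fat points is a theorem of the starting library (`H737R3`, `H580C`).
-/

set_option autoImplicit false

universe u v

namespace Pool.Agent.Results.MP_3eef69_ag.ClosedPoints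

open MvPolynomial Topology
open Filter (Tendsto atTop eventually_ge_atTop)

/-- Projective space of dimension `n` over `M`: the lines through the origin of `M ^ (n + 1)`. -/
abbrev PP (M : Type v) [Field M] (n : ℕ) : Type v := Projectivization M (Fin (n + 1) → M)

/-- The homogeneous ideal `I(p)` of `M[x_0, …, x_n]` of the point `p` of `P^n(M)`: the ideal
generated by the forms which vanish at `p`. -/
noncomputable def ptIdeal {M : Type v} [Field M] {n : ℕ} (p : PP M n) :
    Ideal (MvPolynomial (Fin (n + 1)) M) :=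
  Ideal.span {F | (∃ d : ℕ, F.IsHomogeneous d) ∧ eval p.rep F = 0}

/-- The ideal `I^(k)` of `K[x_0, …, x_n]` belonging to the finite set `Z` of points of `P^n(M)`,
where `M` is an extension of `K`: the polynomials with coefficients in `K` which belong to
`I(p) ^ k` for all `p ∈ Z`. For `k = 1` this is the intersection of the homogeneous prime ideals of
the closed points of `P^n_K` determined by the points of `Z`. -/
noncomputable def symPow (K : Type u) [Field K] {M : Type v} [Field M] [Algebra K M] {n : ℕ}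
    (Z : Finset (PP M n)) (k : ℕ) : Ideal (MvPolynomial (Fin (n + 1)) K) :=
  Ideal.comap (map (algebraMap K M)) (⨅ p ∈ Z, ptIdeal p ^ k)

/-- `α(J)`: the least degree of a nonzero element of the ideal `J`. -/
noncomputable def alpha {K : Type u} [Field K] {n : ℕ}
    (J : Ideal (MvPolynomial (Fin (n + 1)) K)) : ℕ :=
  sInf {d | ∃ F ∈ J, F ≠ 0 ∧ F.totalDegree = d}

section

open Pool.Agent.H737R3 (mem_ptIdeal_pow component_mem ptIdeal_eq top_component linI linI_le_mI
  linI_ne_bot)
open Pool.Agent.Chud (mI)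

variable {K : Type u} [Field K] {M : Type v} [Field M] [Algebra K M] {n : ℕ}

theorem ptIdeal_eq_lib (p : PP M n) : ptIdeal p = Pool.Agent.H737R3.ptIdeal p := rfl

theorem mem_symPow {Z : Finset (PP M n)} {k : ℕ} {F : MvPolynomial (Fin (n + 1)) K} :
    F ∈ symPow K Z k ↔ ∀ p ∈ Z, map (algebraMap K M) F ∈ ptIdeal p ^ k := by
  unfold symPow
  simp only [Ideal.mem_comap, Submodule.mem_iInf]

theorem map_component (F : MvPolynomial (Fin (n + 1)) K) (d : ℕ) :
    map (algebraMap K M) (homogeneousComponent d F) =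
      homogeneousComponent d (map (algebraMap K M) F) := by
  ext m
  rw [coeff_map, coeff_homogeneousComponent, coeff_homogeneousComponent, coeff_map]
  split_ifs
  · rfl
  · rw [map_zero]

theorem component_mem_symPow {Z : Finset (PP M n)} {k : ℕ} {F : MvPolynomial (Fin (n + 1)) K}
    (h : F ∈ symPow K Z k) (d : ℕ) : homogeneousComponent d F ∈ symPow K Z k := by
  rw [mem_symPow] at h ⊢
  intro p hp
  rw [map_component]
  have := h p hp
  rw [ptIdeal_eq_lib, ptIdeal_eq] at this ⊢
  exact component_mem _ _ this d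

/-- the conjugates of the representatives of the points -/
def conj (K : Type u) [Field K] {M : Type v} [Field M] [Algebra K M] {n : ℕ}
    (Z : Finset (PP M n)) : Set (Fin (n + 1) → M) :=
  {v | ∃ s : M ≃ₐ[K] M, ∃ p ∈ Z, v = fun i => s (p.rep i)}

theorem conj_finite [FiniteDimensional K M] (Z : Finset (PP M n)) : (conj K Z).Finite := by
  have h : conj K Z ⊆ ⋃ s : M ≃ₐ[K] M, (fun (p : PP M n) (i : Fin (n + 1)) => s (p.rep i)) ''
      (Z : Set (PP M n)) := by
    rintro v ⟨s, p, hp, rfl⟩
    exact Set.mem_iUnion.2 ⟨s, p, hp, rfl⟩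
  refine Set.Finite.subset ?_ h
  exact Set.finite_iUnion fun s => Z.finite_toSet.image _

theorem conj_ne_zero {Z : Finset (PP M n)} : ∀ v ∈ conj K Z, v ≠ 0 := by
  rintro v ⟨s, p, hp, rfl⟩ h
  apply p.rep_nonzero
  funext i
  have := congrFun h i
  exact s.injective (by rw [Pi.zero_apply, map_zero]; exact this)

/-- conjugation of polynomials -/
theorem map_mem_mI (s : M ≃ₐ[K] M) (v : Fin (n + 1) → M) (k : ℕ)
    {P : MvPolynomial (Fin (n + 1)) M} (hP : P ∈ mI v ^ k) :
    map (s : M →+* M) P ∈ mI (fun i => s (v i)) ^ k := by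
  have h1 : Ideal.map (map (s : M →+* M)) (mI v ^ k) ≤ mI (fun i => s (v i)) ^ k := by
    rw [Ideal.map_pow]
    apply Ideal.pow_right_mono
    rw [Ideal.map_le_iff_le_comap]
    intro x hx
    rw [Ideal.mem_comap]
    change eval (fun i => s (v i)) (map (s : M →+* M) x) = 0
    have h2 : eval v x = 0 := hx
    have h3 : (eval (fun i => s (v i))).comp (map (s : M →+* M)) =
        (s : M →+* M).comp (eval v : MvPolynomial (Fin (n + 1)) M →+* M) := by
      apply MvPolynomial.ringHom_ext
      · intro r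
        simp
      · intro i
        simp
    have h4 := DFunLike.congr_fun h3 x
    rw [RingHom.comp_apply, RingHom.comp_apply, h2, map_zero] at h4
    exact h4
  exact h1 (Ideal.mem_map_of_mem _ hP)

theorem map_map_self (s : M ≃ₐ[K] M) (F : MvPolynomial (Fin (n + 1)) K) :
    map (s : M →+* M) (map (algebraMap K M) F) = map (algebraMap K M) F := by
  have h : (s : M →+* M).comp (algebraMap K M) = algebraMap K M := by
    refine RingHom.ext fun x => ?_
    simp
  rw [map_map, h]

/-- forms with coefficients in `K` vanish at the conjugates -/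
theorem mem_conj {Z : Finset (PP M n)} {k d : ℕ} {F : MvPolynomial (Fin (n + 1)) K}
    (hF : F.IsHomogeneous d) (h : F ∈ symPow K Z k) :
    ∀ v ∈ conj K Z, map (algebraMap K M) F ∈ mI v ^ k := by
  rintro v ⟨s, p, hp, rfl⟩
  rw [mem_symPow] at h
  have h1 := h p hp
  rw [ptIdeal_eq_lib, mem_ptIdeal_pow (hF.map _)] at h1
  have h2 := map_mem_mI s p.rep k h1
  rwa [map_map_self] at h2

/-- the trace of a form -/
theorem exists_trace [FiniteDimensional K M] [IsGalois K M] {Z : Finset (PP M n)} {k d : ℕ}
    {P : MvPolynomial (Fin (n + 1)) M} (hP0 : P ≠ 0) (hP : P.IsHomogeneous d)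
    (h : ∀ v ∈ conj K Z, P ∈ mI v ^ k) :
    ∃ T ∈ symPow K Z k, T ≠ 0 ∧ T.IsHomogeneous d := by
  classical
  obtain ⟨m₀, hm₀⟩ := MvPolynomial.ne_zero_iff.1 hP0
  obtain ⟨y, hy⟩ := Algebra.trace_surjective K M 1
  set c : M := y * (coeff m₀ P)⁻¹ with hc
  set T : MvPolynomial (Fin (n + 1)) K :=
    ∑ m ∈ P.support, monomial m (Algebra.trace K M (c * coeff m P)) with hT
  have hcoeff : ∀ m, coeff m T = Algebra.trace K M (c * coeff m P) := by
    intro m
    rw [hT, coeff_sum]
    by_cases hm : m ∈ P.support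
    · rw [Finset.sum_eq_single m]
      · rw [coeff_monomial, if_pos rfl]
      · intro b _ hb
        rw [coeff_monomial, if_neg hb]
      · intro h
        exact absurd hm h
    · rw [notMem_support_iff.1 hm, mul_zero, map_zero]
      apply Finset.sum_eq_zero
      intro b hb
      rw [coeff_monomial, if_neg]
      rintro rfl
      exact hm hb
  have hTmap : map (algebraMap K M) T = ∑ s : M ≃ₐ[K] M, map (s : M →+* M) (C c * P) := by
    ext m
    rw [coeff_map, hcoeff, trace_eq_sum_automorphisms, coeff_sum]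
    refine Finset.sum_congr rfl fun s _ => ?_
    rw [coeff_map, coeff_C_mul]
    rfl
  have hTh : T.IsHomogeneous d := by
    intro m hm
    apply hP
    intro h0
    apply hm
    rw [hcoeff, h0, mul_zero, map_zero]
  refine ⟨T, ?_, ?_, hTh⟩
  · rw [mem_symPow]
    intro p hp
    rw [ptIdeal_eq_lib, mem_ptIdeal_pow (hTh.map _), hTmap]
    refine Ideal.sum_mem _ fun s _ => ?_
    have h1 : P ∈ mI (fun i => s.symm (p.rep i)) ^ k := h _ ⟨s.symm, p, hp, rfl⟩
    have h2 := map_mem_mI s _ k (Ideal.mul_mem_left _ (C c) h1)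
    have h3 : (fun i => s (s.symm (p.rep i))) = p.rep := by
      funext i
      exact s.apply_symm_apply _
    rwa [h3] at h2
  · intro h0
    have h1 := hcoeff m₀
    rw [h0, coeff_zero, hc, mul_assoc, inv_mul_cancel₀ hm₀, mul_one, hy] at h1
    exact zero_ne_one h1

theorem symPow_nonzero [FiniteDimensional K M] [IsGalois K M] (hn : 1 ≤ n) (Z : Finset (PP M n))
    (k : ℕ) : ∃ F ∈ symPow K Z k, F ≠ 0 := by
  classical
  have hl : ∀ v : Fin (n + 1) → M, ∃ l : MvPolynomial (Fin (n + 1)) M, l ∈ mI v ∧ l ≠ 0 ∧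
      ∃ d, l.IsHomogeneous d := by
    intro v
    obtain ⟨l, hl, hl0⟩ := linI_ne_bot hn v
    have h1 := component_mem v 1 (by rwa [pow_one]) l.totalDegree
    rw [pow_one] at h1
    exact ⟨_, linI_le_mI v h1, top_component hl0, _, homogeneousComponent_isHomogeneous _ _⟩
  choose l hlm hl0 dl hlh using hl
  obtain ⟨T, hT, hT0, -⟩ := exists_trace (K := K) (Z := Z) (k := k)
    (P := ∏ v ∈ (conj_finite (K := K) Z).toFinset, l v ^ k)
    (Finset.prod_ne_zero_iff.2 fun v _ => pow_ne_zero _ (hl0 v))
    (MvPolynomial.IsHomogeneous.prod _ _ _ fun v _ => (hlh v).pow k) (by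
      intro v hv
      rw [← Finset.mul_prod_erase _ _ ((conj_finite (K := K) Z).mem_toFinset.2 hv)]
      exact Ideal.mul_mem_right _ _ (Ideal.pow_mem_pow (hlm v) _))
  exact ⟨T, hT, hT0⟩

theorem alpha_spec {J : Ideal (MvPolynomial (Fin (n + 1)) K)} (h : ∃ F ∈ J, F ≠ 0)
    (hJ : ∀ F ∈ J, ∀ d, homogeneousComponent d F ∈ J) :
    ∃ F ∈ J, F ≠ 0 ∧ F.IsHomogeneous (alpha J) := by
  have hne : {d | ∃ F ∈ J, F ≠ 0 ∧ F.totalDegree = d}.Nonempty := by
    obtain ⟨F, hF, hF0⟩ := h
    exact ⟨_, F, hF, hF0, rfl⟩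
  obtain ⟨F, hF, hF0, hFd⟩ := Nat.sInf_mem hne
  refine ⟨homogeneousComponent F.totalDegree F, hJ _ hF _, top_component hF0, ?_⟩
  have := homogeneousComponent_isHomogeneous F.totalDegree F
  rwa [hFd] at this ⊢

theorem alpha_le {J : Ideal (MvPolynomial (Fin (n + 1)) K)} {F : MvPolynomial (Fin (n + 1)) K}
    (hF : F ∈ J) (hF0 : F ≠ 0) : alpha J ≤ F.totalDegree :=
  Nat.sInf_le ⟨F, hF, hF0, rfl⟩

theorem demailly_nat [FiniteDimensional K M] [IsGalois K M] (hn : 1 ≤ n) (Z : Finset (PP M n))
    (hZ : Z.Nonempty) (t k : ℕ) (ht : 1 ≤ t) :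
    k * (alpha (symPow K Z t) + n - 1) ≤ alpha (symPow K Z k) * (t + n - 1) := by
  obtain ⟨F, hF, hF0, hFh⟩ := alpha_spec (symPow_nonzero (K := K) hn Z k)
    (fun F hF d => component_mem_symPow hF d)
  obtain ⟨p, hp⟩ := hZ
  refine Pool.Agent.H737R3.demailly_fat M n t (alpha (symPow K Z t)) k (alpha (symPow K Z k))
    (conj K Z) (fun _ => 1) (map (algebraMap K M) F) hn ht (conj_finite Z) ?_ conj_ne_zero ?_ ?_
    (hFh.map _) ?_
  · exact ⟨p.rep, ⟨AlgEquiv.refl, p, hp, rfl⟩, le_rfl⟩
  · intro P d hP0 hP hPv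
    simp only [mul_one] at hPv
    obtain ⟨T, hT, hT0, hTh⟩ := exists_trace hP0 hP hPv
    have := alpha_le hT hT0
    rwa [hTh.totalDegree hT0] at this
  · intro h0
    exact hF0 (map_injective _ (algebraMap K M).injective (by rw [h0, map_zero]))
  · intro v hv
    rw [mul_one]
    exact mem_conj hFh hF v hv

theorem alpha_add_le [FiniteDimensional K M] [IsGalois K M] (hn : 1 ≤ n) (Z : Finset (PP M n))
    (a b : ℕ) : alpha (symPow K Z (a + b)) ≤ alpha (symPow K Z a) + alpha (symPow K Z b) := by
  obtain ⟨F, hF, hF0, hFh⟩ := alpha_spec (symPow_nonzero (K := K) hn Z a)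
    (fun F hF d => component_mem_symPow hF d)
  obtain ⟨G, hG, hG0, hGh⟩ := alpha_spec (symPow_nonzero (K := K) hn Z b)
    (fun F hF d => component_mem_symPow hF d)
  have h1 : F * G ∈ symPow K Z (a + b) := by
    rw [mem_symPow] at hF hG ⊢
    intro p hp
    rw [map_mul, pow_add]
    exact Ideal.mul_mem_mul (hF p hp) (hG p hp)
  have h2 := alpha_le h1 (mul_ne_zero hF0 hG0)
  rwa [(hFh.mul hGh).totalDegree (mul_ne_zero hF0 hG0)] at h2

end

/-- **Chudnovsky's and Demailly's inequalities** for closed points over an arbitrary field.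
Let `K` be a field, `M` a finite Galois extension of `K`, `n ≥ 1`, and `Z` a finite nonempty set of
points of `P^n(M)`, and let `I^(k)` be the ideal of the polynomials with coefficients in `K` which
vanish to order at least `k` at the points of `Z`. Then the Waldschmidt constant
`c = lim α(I^(k)) / k` exists, `c ≥ (α(I) + n - 1) / n`, and
`c ≥ (α(I^(t)) + n - 1) / (t + n - 1)` for all `t ≥ 1`. -/
theorem result (K : Type u) [Field K] (M : Type v) [Field M] [Algebra K M]
    [FiniteDimensional K M] [IsGalois K M] (n : ℕ) (hn : 1 ≤ n) (Z : Finset (PP M n))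
    (hZ : Z.Nonempty) :
    ∃ c : ℝ, Tendsto (fun k : ℕ => (alpha (symPow K Z k) : ℝ) / k) atTop (𝓝 c) ∧
      ((alpha (symPow K Z 1) : ℝ) + n - 1) / n ≤ c ∧
      ∀ t : ℕ, 1 ≤ t → ((alpha (symPow K Z t) : ℝ) + n - 1) / ((t : ℝ) + n - 1) ≤ c := by
  have hsub : Subadditive (fun k : ℕ => (alpha (symPow K Z k) : ℝ)) := by
    intro a b
    beta_reduce
    exact_mod_cast alpha_add_le hn Z a b
  have hlim : Tendsto (fun k : ℕ => (alpha (symPow K Z k) : ℝ) / k) atTop (𝓝 hsub.lim) := by
    refine hsub.tendsto_lim ⟨0, ?_⟩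
    rintro _ ⟨r, rfl⟩
    positivity
  have main : ∀ t : ℕ, 1 ≤ t →
      ((alpha (symPow K Z t) : ℝ) + n - 1) / ((t : ℝ) + n - 1) ≤ hsub.lim := by
    intro t ht
    refine ge_of_tendsto hlim ?_
    filter_upwards [eventually_ge_atTop 1] with k hk
    exact Pool.Agent.H737R3.real_of_nat hn ht hk (demailly_nat hn Z hZ t k ht)
  refine ⟨_, hlim, ?_, main⟩
  have := main 1 le_rfl
  rwa [Nat.cast_one, show (1 : ℝ) + n - 1 = n by ring] at this

end Pool.Agent.Results.MP_3eef69_ag.ClosedPoints
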